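import Pool.Agent.H628R4.SP.Defs

/-!
# Two-way multihead finite automata with an oracle

These are the machines of helper628's `Pool.Agent.H628R4.SP.Defs` without work tape (`0` cells).
-/

namespace Pool.Agent.H752.MH

open Pool.Agent.NPC Pool.Agent.H620R2.Gauge Pool.Agent.H628R4.SP

/-- `L` is accepted, relative to `A`, by a deterministic two-way multihead finite automaton with a
query tape of polynomially many cells (erased by each question). The work tape has no cells, it
consists of the two end markers only. -/
def IsMultiDFA (A : Oracle) (L : Set (List Bool)) : Prop :=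
  ∃ (k m h d : ℕ) (M : Mach (Fin k) (Fin m) h), M.Det ∧
    ∀ x, x ∈ L ↔ M.Acc A 0 ((x.length + 2) ^ d) x

/-- The same for nondeterministic automata; nondeterministic choices are possible only while the
query tape is empty. -/
def IsMultiNFA (A : Oracle) (L : Set (List Bool)) : Prop :=
  ∃ (k m h d : ℕ) (M : Mach (Fin k) (Fin m) h),
    ∀ x, x ∈ L ↔ M.Acc A 0 ((x.length + 2) ^ d) x

end Pool.Agent.H752.MH
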