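import Pool.Agent.H752.MH.NN
import Pool.Agent.H752.MH.Null
import Pool.Agent.H628R4.SP.Final
import Pool.Agent.H620R2.Gauge2.Trans

/-!
# Multihead finite automata versus polynomial time, relative to oracles

`P` is the class of the languages of the deterministic two-way multihead pushdown automata, so the
first question of the problem is whether `P` is contained in the class of the languages of the
deterministic two-way multihead finite automata. Here finite automata and `P` have an oracle.
-/

namespace Pool.Agent.H752.MH.Final

open Pool.Agent.NPC Pool.Agent.H620R2.Gauge Pool.Agent.H628R4.SP Pool.Agent.H752.MH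

/-- For every gauge `f`: each set `O` of oracles which contains all oracles `A` such that polynomial
space relative to `A` is contained in the class of the languages of the deterministic two-way
multihead finite automata with oracle `A`, and such that for each of its members `A`, `P` relative
to `A` is contained in the class of the languages of the nondeterministic two-way multihead finite
automata with oracle `A`, is `f`-null if and only if, for every `ε > 0`,
`f N ≤ 2 ^ (log₂ N) ^ ε` infinitely often. In particular this holds for the set of the oracles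
relative to which `P` is contained in the class of the languages of the deterministic
(nondeterministic) two-way multihead finite automata. -/
theorem result (f : ℕ → ℝ) :
    (∀ O : Set Oracle,
      (∀ A : Oracle, (∀ L, IsPSPACE A L → IsMultiDFA A L) → A ∈ O) →
      (∀ A ∈ O, ∀ L, IsP A L → IsMultiNFA A L) →
      (Null f O ↔
        ∀ ε : ℝ, 0 < ε → ∃ᶠ N : ℕ in Filter.atTop, f N ≤ 2 ^ (Real.logb 2 N) ^ ε)) ∧
    (Null f {A : Oracle | ∀ L, IsP A L → IsMultiDFA A L} ↔
      ∀ ε : ℝ, 0 < ε → ∃ᶠ N : ℕ in Filter.atTop, f N ≤ 2 ^ (Real.logb 2 N) ^ ε) ∧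
    (Null f {A : Oracle | ∀ L, IsP A L → IsMultiNFA A L} ↔
      ∀ ε : ℝ, 0 < ε → ∃ᶠ N : ℕ in Filter.atTop, f N ≤ 2 ^ (Real.logb 2 N) ^ ε) := by
  have hDN : ∀ {A : Oracle} {L : Set (List Bool)}, IsMultiDFA A L → IsMultiNFA A L := by
    rintro A L ⟨k, m, h, d, M, _, hM⟩
    exact ⟨k, m, h, d, M, hM⟩
  have key : ∀ O : Set Oracle,
      (∀ A : Oracle, (∀ L, IsPSPACE A L → IsMultiDFA A L) → A ∈ O) →
      (∀ A ∈ O, ∀ L, IsP A L → IsMultiNFA A L) →
      (Null f O ↔
        ∀ ε : ℝ, 0 < ε → ∃ᶠ N : ℕ in Filter.atTop, f N ≤ 2 ^ (Real.logb 2 N) ^ ε) := by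
    intro O h1 h2
    constructor
    · intro hn ε hε
      by_contra hcon
      rw [Filter.not_frequently] at hcon
      exact not_nullM f ε hε (hcon.mono fun N h => not_le.1 h) O h1 hn
    · intro hf
      exact (nullM f hf).mono fun A hA => h2 A hA _ (testT_isP A)
  refine ⟨key, key _ ?_ ?_, key _ ?_ ?_⟩
  · exact fun A hA L hL => hA L hL.isPSPACE
  · exact fun A hA L hL => hDN (hA L hL)
  · exact fun A hA L hL => hDN (hA L hL.isPSPACE)
  · exact fun A hA => hA

end Pool.Agent.H752.MH.Final
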