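import Pool.Agent.H752.MH.Defs
import Pool.Agent.H628R4.SP.F_NN
import Pool.Agent.H622R2.Exp.L

/-! Too many oracles (after helper616 and helper628, `F_NN.lean`). -/

namespace Pool.Agent.H752.MH

open Pool.Agent.NPC Pool.Agent.H620R2.Gauge Finset H568R2 Pool.Agent.H676
open Pool.Agent.H628R4.SP
open Filter (atTop)

theorem dec_multi (e κ : ℕ) (A : Oracle) : IsMultiDFA A {x | A (codeL e κ x) = true} := by
  obtain ⟨Q, hQ, M, d, hM, hacc⟩ := dec e κ
  obtain ⟨k, m, M', hM', hacc'⟩ := transport M hM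
  refine ⟨k, m, κ + 1, d, M', hM', fun x => ?_⟩
  rw [hacc' A _ _ x, hacc A _ x]
  rfl

theorem not_nullM (f : ℕ → ℝ) (ε : ℝ) (hε : 0 < ε)
    (hf : ∀ᶠ N : ℕ in Filter.atTop, 2 ^ (Real.logb 2 N) ^ ε < f N) (O : Set Oracle)
    (hO : ∀ A : Oracle, (∀ L, IsPSPACE A L → IsMultiDFA A L) → A ∈ O) :
    ¬ Null f O := by
  classical
  obtain ⟨K, hK⟩ := exists_nat_gt (1 / ε)
  have hK' : 1 < ε * K := by
    rw [div_lt_iff₀ hε] at hK
    linarith
  obtain ⟨κ, Φ, hR0, hΦ0, hΦO0⟩ := exists_codingL K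
  let R : ℕ → Polynomial ℕ := fun e => (Polynomial.X + Polynomial.C 2) ^ (κ e)
  have hRe : ∀ e n, (R e).eval n = (n + 2) ^ (κ e) := by
    intro e n
    simp [R]
  have hR : ∀ e n, (n + e + 1) ^ K ≤ (R e).eval n := by
    intro e n
    rw [hRe]
    exact hR0 e n
  have hcode : ∀ e x, code R e x = codeL e (κ e) x := by
    intro e x
    unfold code codeL
    rw [hRe]
  have hsp := sparse R hR hε hK'
  refine Pool.Agent.H622R2.Exp.not_null_ev f Φ {y | ∃ e x, y = code R e x} ?_ ?_ O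
    (fun B => hO _ ?_)
  · intro B y hy
    refine hΦ0 B y fun e x h => hy ⟨e, x, ?_⟩
    rw [hcode]
    exact h
  · filter_upwards [hsp, hf] with N h5 h6
    refine le_trans (le_of_eq ?_) (h5.trans h6.le)
    congr 2
  · intro L hL
    obtain ⟨e, he⟩ := hΦO0 B L hL
    have h1 : L = {x | Φ B (codeL e (κ e) x) = true} := by
      ext x
      exact he x
    rw [h1]
    exact dec_multi e (κ e) (Φ B)

end Pool.Agent.H752.MH
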